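import Pool.Agent.H61.KV.TN

/-!
# Kuiper board KV, module CFI: the configuration of a tight and substantial embedding
-/

open Topology Set
open Pool.Agent.H59 Pool.Agent.H64.LB Pool.Agent.H61.KU Pool.Agent.H61.KV
open scoped unitInterval

namespace Pool.Agent.H33.KV.CFI

/-- the functionals on `E8 × ℝ` -/
theorem riesz (ξ : E8 × ℝ →ₗ[ℝ] ℝ) :
    ∃ (ξ₁ : E8) (r₁ : ℝ), ∀ (v : E8) (r : ℝ), ξ (v, r) = inner ℝ ξ₁ v + r₁ * r := by
  let φ : E8 →ₗ[ℝ] ℝ := ξ.comp (LinearMap.inl ℝ E8 ℝ)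
  refine ⟨(InnerProductSpace.toDual ℝ E8).symm (LinearMap.toContinuousLinearMap φ),
    ξ (0, 1), ?_⟩
  intro v r
  rw [InnerProductSpace.toDual_symm_apply]
  have h1 : ((v, r) : E8 × ℝ) = (v, 0) + r • ((0, 1) : E8 × ℝ) := by
    ext <;> simp
  rw [h1, map_add, map_smul, smul_eq_mul, mul_comm r]
  rfl

theorem pf_CFI (h : T_OTI) : T_CFI := by
  intro f hinj hT hS
  have hex : Nonempty (PN 2) := by
    obtain ⟨x, -⟩ := hS (EuclideanSpace.single 0 1) 0 (by
      intro h0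
      have h1 := congrArg (fun v : E8 => v 0) h0
      simp at h1)
    exact ⟨x⟩
  refine ⟨?_, ?_, ?_, ?_, ?_, ?_⟩
  · exact f.continuous.prodMk continuous_const
  · refine ⟨LinearMap.snd ℝ E8 ℝ, ?_⟩
    intro x
    show (0 : ℝ) < 1
    exact one_pos
  · intro x y c _ hxy
    have h2 : (1 : ℝ) = c * 1 := congrArg Prod.snd hxy
    have h1 : f y = c • f x := congrArg Prod.fst hxy
    have hc : c = 1 := by linarith
    rw [hc, one_smul] at h1
    exact (hinj h1).symm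
  · rw [Module.finrank_prod, finrank_euclideanSpace_fin, Module.finrank_self]
  · by_contra hne
    obtain ⟨ξ, hξ, hle⟩ := Submodule.exists_le_ker_of_lt_top _ (lt_top_iff_ne_top.2 hne)
    obtain ⟨ξ₁, r₁, hr⟩ := riesz ξ
    have hv : ∀ x, inner ℝ ξ₁ (f x) = -r₁ := by
      intro x
      have h1 : ξ (f x, (1 : ℝ)) = 0 := hle (Submodule.subset_span ⟨x, rfl⟩)
      rw [hr] at h1
      linarith
    by_cases h0 : ξ₁ = 0
    · obtain ⟨x⟩ := hex
      have h1 := hv x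
      rw [h0, inner_zero_left] at h1
      apply hξ
      apply LinearMap.ext
      rintro ⟨v, r⟩
      rw [hr, h0, inner_zero_left, LinearMap.zero_apply]
      have : r₁ = 0 := by linarith
      rw [this]
      ring
    · obtain ⟨x, hx⟩ := hS ξ₁ (-r₁) h0
      exact hx (hv x)
  · intro ξ i
    obtain ⟨ξ₁, r₁, hr⟩ := riesz ξ
    have hset : {x : PN 2 | ξ (((f x, (1 : ℝ)) : E8 × ℝ)) < 0}
        = {x : PN 2 | inner ℝ ξ₁ (f x) < -r₁} := by
      ext x
      show ξ (((f x, (1 : ℝ)) : E8 × ℝ)) < 0 ↔ inner ℝ ξ₁ (f x) < -r₁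
      rw [hr]
      constructor <;> intro h1 <;> linarith
    show Function.Injective (HH.map (ZMod 2) i
      (inc {x : PN 2 | ξ (((f x, (1 : ℝ)) : E8 × ℝ)) < 0}))
    rw [hset]
    exact h f hT ξ₁ (-r₁) i

end Pool.Agent.H33.KV.CFI
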