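import Pool.Agent.H61.KV.TN

/-!
# Kuiper board KV, module TPS: the sphere around a missing point
-/

open Topology Set
open Pool.Agent.H59 Pool.Agent.H64.LB Pool.Agent.H61.KU Pool.Agent.H61.KV
open scoped unitInterval

namespace Pool.Agent.H33.KV.TPS

/-- multiplication by a positive continuous function is homotopic to the identity -/
theorem htp_id {d : ℕ} (φ : C(Sph d, Sph d)) (s : Sph d → ℝ) (hs : Continuous s)
    (hp : ∀ u, 0 < s u) (hφ : ∀ u, (φ u).1 = s u • u.1) :
    φ.Homotopic (ContinuousMap.id (Sph d)) := by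
  have hpos : ∀ (t : I) (u : Sph d), 0 < (1 - (t : ℝ)) * s u + (t : ℝ) := by
    intro t u
    have h1 : 0 < s u := hp u
    have h2 : 0 ≤ (t : ℝ) := t.2.1
    have h3 : (t : ℝ) ≤ 1 := t.2.2
    rcases lt_or_eq_of_le h3 with h | h
    · have := mul_pos (sub_pos.2 h) h1
      linarith
    · rw [h]
      norm_num
  refine ⟨{
    toFun := fun q => ⟨((1 - (q.1 : ℝ)) * s q.2 + (q.1 : ℝ)) • q.2.1,
      smul_ne_zero (ne_of_gt (hpos q.1 q.2)) q.2.2⟩
    continuous_toFun := ?_
    map_zero_left := ?_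
    map_one_left := ?_ }⟩
  · apply Continuous.subtype_mk
    apply Continuous.fun_smul
    · apply Continuous.add
      · apply Continuous.mul
        · exact continuous_const.sub (continuous_subtype_val.comp continuous_fst)
        · exact hs.comp continuous_snd
      · exact continuous_subtype_val.comp continuous_fst
    · exact continuous_subtype_val.comp continuous_snd
  · intro u
    apply Subtype.ext
    show ((1 - (((0 : I)) : ℝ)) * s u + (((0 : I)) : ℝ)) • u.1 = (φ u).1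
    rw [hφ u, Set.Icc.coe_zero, sub_zero, one_mul, add_zero]
  · intro u
    apply Subtype.ext
    show ((1 - (((1 : I)) : ℝ)) * s u + (((1 : I)) : ℝ)) • u.1 = u.1
    rw [Set.Icc.coe_one, sub_self, zero_mul, zero_add, one_smul]

/-- a linear retraction onto the coordinates of a slice -/
theorem retr {V W : Type} [AddCommGroup V] [Module ℝ V] [AddCommGroup W] [Module ℝ W]
    (j : W →ᵃ[ℝ] V) (hj : Function.Injective j) (e : V →ₗ[ℝ] ℝ) (he : ∀ y, e (j y) = 1) :
    ∃ ρ : V →ₗ[ℝ] W, ∀ y, ρ (j y) = y := by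
  have hjv : ∀ x, j x = j.linear x + j 0 := by
    intro x
    have h1 := j.map_vadd 0 x
    simpa using h1
  have hlin : Function.Injective j.linear := j.linear_injective_iff.2 hj
  have hel : ∀ x, e (j.linear x) = 0 := by
    intro x
    have h1 := he x
    rw [hjv x, map_add, he 0] at h1
    linarith
  let T : W × ℝ →ₗ[ℝ] V :=
    LinearMap.coprod j.linear (LinearMap.toSpanSingleton ℝ V (j 0))
  have hT : ∀ y r, T (y, r) = j.linear y + r • j 0 := by
    intro y r
    simp [T]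
  have hTi : LinearMap.ker T = ⊥ := by
    rw [LinearMap.ker_eq_bot']
    rintro ⟨y, r⟩ h
    rw [hT] at h
    have h1 := congrArg e h
    rw [map_add, hel, map_smul, he, map_zero, zero_add, smul_eq_mul, mul_one] at h1
    rw [h1, zero_smul, add_zero] at h
    have h2 : y = 0 := hlin (by rw [h, map_zero])
    rw [h1, h2]
    rfl
  obtain ⟨L, hL⟩ := LinearMap.exists_leftInverse_of_injective T hTi
  refine ⟨(LinearMap.fst ℝ W ℝ).comp L, ?_⟩
  intro y
  have h1 : j y = T (y, 1) := by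
    rw [hT, one_smul, hjv y]
  have h2 : L (T (y, 1)) = (y, 1) := LinearMap.congr_fun hL (y, 1)
  show (L (j y)).1 = y
  rw [h1, h2]

theorem pf_TPS (hHM : T_HM) (hG : T_GAU) (h1 : T_HSP) (h2 : T_CNC) (h3 : T_XHO) : T_TPS := by
  intro V _ _ _ m hm e p d j α heC hp hpM hep hji hj0 hjS hjSur hKc hKv hK0 hα i
  obtain ⟨hCC, -, hmC, hm0, -, -, -, -⟩ := h2 V m hm
  obtain ⟨-, -, -, -, -, hcomp, -⟩ := h3
  have : CompactSpace (PN 2) := hcomp
  obtain ⟨g0, gc, gf, g1, gle, gi⟩ := hG (Fin (d + 1) → ℝ) (j ⁻¹' Fc (Cn m) p) hKc hKv hK0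
  obtain ⟨ρ, hρ⟩ := retr j hji e (fun y => (hjS y).2)
  have hρp : ρ p = 0 := by
    rw [← hj0]
    exact hρ 0
  have hρc : Continuous ρ := LinearMap.continuous_of_finiteDimensional ρ
  have hec : Continuous e := LinearMap.continuous_of_finiteDimensional e
  have hρm : Continuous (fun x : PN 2 => ρ (m x)) := hρc.comp hm.cont
  let A : Set (PN 2) := {x | ρ (m x) = 0}
  have hAcl : IsClosed A := isClosed_eq hρm continuous_const
  have hmA : IsCompact (m '' A) := hAcl.isCompact.image hm.cont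
  have hAC : m '' A ⊆ Cn m := by
    rintro _ ⟨x, -, rfl⟩
    exact hmC x
  have hAF : ∀ a ∈ m '' A, a ∉ Fc (Cn m) p := by
    rintro _ ⟨x, hx, rfl⟩ hF
    have hx0 : ρ (m x) = 0 := hx
    have hpos : 0 < e (m x) := heC _ (hmC x) (hm0 x)
    have hSp : (e (m x))⁻¹ • m x ∈ Sp (Cn m) p :=
      Submodule.smul_mem _ _ (Submodule.subset_span hF)
    have he1 : e ((e (m x))⁻¹ • m x) = 1 := by
      rw [map_smul, smul_eq_mul, inv_mul_cancel₀ hpos.ne']
    obtain ⟨y, hy⟩ := hjSur _ hSp he1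
    have hy0 : y = 0 := by
      have := hρ y
      rw [hy, map_smul, hx0, smul_zero] at this
      exact this.symm
    rw [hy0, hj0] at hy
    exact hpM ⟨(e (m x))⁻¹, x, inv_nonneg.2 hpos.le, hy⟩
  obtain ⟨ξ, hξF, hξA⟩ := h1 V (Cn m) p (m '' A) hCC hp hmA hAC hAF
  have hrK : ∀ u : Fin (d + 1) → ℝ, u ≠ 0 → j (rad (j ⁻¹' Fc (Cn m) p) u) ∈ Fc (Cn m) p :=
    fun u hu => (gle _).2 (le_of_eq ((g1 _).1 (gf u hu)))
  -- the set `O` and the retraction
  let O : Set (PN 2) := {x | ξ (m x) < 0}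
  have hO : ∀ x ∈ O, ρ (m x) ≠ 0 := by
    intro x hx h0
    have h4 : ξ (m x) < 0 := hx
    have h5 := hξA (m x) ⟨x, h0, rfl⟩
    linarith
  let β : C(O, Sph d) := ⟨fun x => ⟨ρ (m x.1), hO x.1 x.2⟩,
    (hρm.comp continuous_subtype_val).subtype_mk _⟩
  have hαO : ∀ u : Sph d, α u ∈ O := by
    intro u
    obtain ⟨c, hc, hcu⟩ := hα u
    show ξ (m (α u)) < 0
    rw [hcu, map_smul, smul_eq_mul]
    apply mul_neg_of_pos_of_neg hc
    apply hξF _ (hrK u.1 u.2)
    intro h0
    have := (hjS (rad (j ⁻¹' Fc (Cn m) p) u.1)).2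
    rw [h0, map_zero] at this
    exact zero_ne_one this
  let α' : C(Sph d, O) := ⟨fun u => ⟨α u, hαO u⟩, α.continuous.subtype_mk _⟩
  have hcomp2 : (inc O).comp α' = α := by
    ext u
    rfl
  have hβα : ∀ u : Sph d, ((β.comp α') u).1
      = (e (m (α u)) * (gauge (j ⁻¹' Fc (Cn m) p) u.1)⁻¹) • u.1 := by
    intro u
    obtain ⟨c, hc, hcu⟩ := hα u
    show ρ (m (α u)) = _
    have hce : e (m (α u)) = c := by
      rw [hcu, map_smul, (hjS _).2, smul_eq_mul, mul_one]
    rw [hce, hcu, map_smul, hρ, rad, smul_smul]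
  have hhom : (β.comp α').Homotopic (ContinuousMap.id (Sph d)) := by
    apply htp_id (β.comp α')
      (fun u => e (m (α u)) * (gauge (j ⁻¹' Fc (Cn m) p) u.1)⁻¹) _ _ hβα
    · apply Continuous.mul
      · exact (hec.comp hm.cont).comp α.continuous
      · apply Continuous.inv₀
        · exact gc.comp continuous_subtype_val
        · intro q
          exact ne_of_gt (g0 _ q.2)
    · intro u
      exact mul_pos (heC _ (hmC _) (hm0 _)) (inv_pos.2 (g0 _ u.2))
  have hmap := hHM (ZMod 2) (Sph d) (Sph d) _ _ hhom i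
  intro z1 z2 h12
  have e1 : HH.map (ZMod 2) i α' z1 = HH.map (ZMod 2) i α' z2 := by
    apply hm.ot ξ i
    rw [← HH.map_comp, ← HH.map_comp]
    exact (congrArg (fun a : C(Sph d, PN 2) => HH.map (ZMod 2) i a z1) hcomp2).trans
      (h12.trans (congrArg (fun a : C(Sph d, PN 2) => HH.map (ZMod 2) i a z2) hcomp2).symm)
  have e2 : ∀ z, HH.map (ZMod 2) i β (HH.map (ZMod 2) i α' z) = z := by
    intro z
    rw [← HH.map_comp, hmap, HH.map_id]
  rw [← e2 z1, ← e2 z2, e1]

end Pool.Agent.H33.KV.TPS
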